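import Pool.Agent.U365.POW.J
import Pool.Agent.Results.MP_a95293_nt.MultiplicativeValues

/-!
# The `n`-term abc conjecture near `s(m)`, `m - φ(m)` and `α m + β f(m)`

Let `s(m)` be the sum of the proper divisors of `m`. Let `G` be a function with steps bounded below by a positive constant and
growth at most `v ^ d`, for example `G v = v`, let `n ≥ 3`, `θ ≥ 0`, `A, M > 0`. (1) If `e = d A (1 - 1 / binom(n, ⌊n/2⌋)) / M + θ < 1`
then for a set of `m` of lower density at least `1 - e`, EVERY integer `t` with `|t - G (s(m))| ≤ s(m) ^ θ` is `Good n A M`: all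
admissible `x` (`n` nonzero integers of sum `0` without vanishing subsums and common factor) with `t ∣ x_1 ⋯ x_n` and
`max |x_j| ≤ t ^ A` satisfy `max |x_j| ≤ rad (x_1 ⋯ x_n) ^ M`; and the same holds for `m - φ(m)`. (2) For the tuples of pairwise
coprime integers this holds if `e = d A (1 - 1 / n) / M + θ < 1`. More precisely this holds for almost all `m` with a divisor
`≥ m ^ (e + ρ)` which is a prime or the product of two different primes, and for the values `g = α m + β f(m)` of multiplicative
functions with `f p = p + c` at the primes, uniformly in `|α|, |β| ≤ N ^ δ` and with a power saving in the number of the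
exceptional `m`.

Proof. The number of the exceptional `t` has a power saving (starting theorems). Let `m = k v p` with large primes `p ≠ v`. Then
`g = A v p + B (v + p) + B c`, `A = α k + β f(k)`, `B = β c f(k)`, and so `(A v + B) (A p + B) = A g + B² - A B c`: for given `g`,
`k`, `α`, `β` there are only `N^o(1)` possibilities for `p` and `v`.

If the exponent `e` is smaller than `1/2`, no divisor is needed: the property holds for almost all `m` (for all `m ≤ N` but at
most `N / (log N) ^ A`, for every `A`), for all `α ≠ 0`, `β`. Here we use the divisors `D` of `m` without small prime factors: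
`α m` is congruent to `g` modulo `f(D)`; if the size of all such `D` is inconvenient, then `m = R D` where the prime factors of
`D` are so large that `D` lies in a short interval which is given by `R` and `g`.
-/

set_option autoImplicit false

open Finset

namespace Pool.Agent.Results.MP_a95293_nt.AliquotValues

open Pool.Agent.U365.POW (Law law_nat law_mono)
open Pool.Agent.N733.TG (Expanding)
open DivisorsInWindows (Admissible rad height Good GoodCoprime κ_nonneg hcount hcount_coprime)

/-- EVERY integer `t` with `|t - G g| ≤ g ^ θ` is `Good n A M`. -/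
def Near (n : ℕ) (A M : ℝ) (G : ℕ → ℝ) (θ : ℝ) (g : ℕ) : Prop :=
  ∀ t : ℕ, |(t : ℝ) - G g| ≤ (g : ℝ) ^ θ → Good n A M t

/-- EVERY integer `t` with `|t - G g| ≤ g ^ θ` is `GoodCoprime n A M`. -/
def NearCoprime (n : ℕ) (A M : ℝ) (G : ℕ → ℝ) (θ : ℝ) (g : ℕ) : Prop :=
  ∀ t : ℕ, |(t : ℝ) - G g| ≤ (g : ℝ) ^ θ → GoodCoprime n A M t

/-- **Theorem.** Let `G` have steps `≥ a > 0` and growth at most `v^d`, `n ≥ 3`, `θ ≥ 0`, `A, M > 0`. (1) Let `e = d A (1 - 1 /
binom(n, ⌊n/2⌋)) / M + θ < 1`. The property `Near` holds for the values of similar functions as the aliquot sum with the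
exponent `e` (`Law`): if this exponent is smaller than `1/2`, then (1) for ALL `α m + β f(m)` at almost all `m`, and so for
`s(m)` and `m - φ(m)` for almost all `m`; in general, (2) at almost all the `m` with a divisor `≥ m ^ (e + ρ)` which is a prime
or the product of two different primes, and for `s(m)` and `m - φ(m)` for a set of `m` of lower density at least `1 - (e)`. (2)
If `e = d A (1 - 1 / n) / M + θ < 1`, the same is true of the property `NearCoprime`. -/
theorem result (n : ℕ) (hn : 3 ≤ n) : ∀ (G : ℕ → ℝ) (d : ℝ), Expanding G d → ∀ θ A M : ℝ, 0 ≤ θ → 0 < A → 0 < M →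
    (d * (A * ((1 - 1 / (n.choose (n / 2) : ℝ)) / M)) + θ < 1 →
      Law (d * (A * ((1 - 1 / (n.choose (n / 2) : ℝ)) / M)) + θ) (Near n A M G θ)) ∧
    (d * (A * ((1 - 1 / (n : ℝ)) / M)) + θ < 1 →
      Law (d * (A * ((1 - 1 / (n : ℝ)) / M)) + θ) (NearCoprime n A M G θ)) := by
  classical
  intro G d hG θ A M hθ hA hM
  refine ⟨fun h1 => ?_, fun h1 => ?_⟩
  · have a := law_nat
      (Pool.Agent.R559.NP.DivBad (n := n) (fun x : Fin n → ℤ => Admissible x ∧ ¬ height x ≤ (rad x : ℝ) ^ M) A) hG
      (s := A * ((1 - 1 / (n.choose (n / 2) : ℝ)) / M)) (κ := θ)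
      (mul_nonneg hA.le (div_nonneg (κ_nonneg n) hM.le)) hθ h1
      (Pool.Agent.R559.NP.count_div (fun x hx => hx.1.ne_zero hn) hA (fun δ hδ => hcount hn hM δ hδ))
    have hm : ∀ g : ℕ, (∀ t : ℕ, |(t : ℝ) - G g| ≤ (g : ℝ) ^ θ → 1 ≤ t ∧ t ∉ Pool.Agent.R559.NP.DivBad (n := n)
        (fun x : Fin n → ℤ => Admissible x ∧ ¬ height x ≤ (rad x : ℝ) ^ M) A) → Near n A M G θ g := by
      intro g hg t ht
      by_contra e3
      unfold Good at e3
      push Not at e3
      obtain ⟨x, hx, hd, hh, hr⟩ := e3
      exact (hg t ht).2 ⟨x, ⟨hx, not_le.2 hr⟩, hh, hd⟩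
    exact law_mono a hm
  · have hs : 0 ≤ (1 - 1 / (n : ℝ)) / M := by
      have h3 : (3 : ℝ) ≤ n := by exact_mod_cast hn
      refine div_nonneg ?_ hM.le
      rw [sub_nonneg, div_le_one (by linarith)]
      linarith
    have a := law_nat
      (Pool.Agent.R559.NP.DivBad (n := n) (fun x : Fin n → ℤ => (Admissible x ∧ ¬ height x ≤ (rad x : ℝ) ^ M) ∧
        ∀ i j, i ≠ j → IsCoprime (x i) (x j)) A) hG
      (s := A * ((1 - 1 / (n : ℝ)) / M)) (κ := θ) (mul_nonneg hA.le hs) hθ h1
      (Pool.Agent.R559.NP.count_div (fun x hx => hx.1.1.ne_zero hn) hA (fun δ hδ => hcount_coprime hn hM δ hδ))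
    have hm : ∀ g : ℕ, (∀ t : ℕ, |(t : ℝ) - G g| ≤ (g : ℝ) ^ θ → 1 ≤ t ∧ t ∉ Pool.Agent.R559.NP.DivBad (n := n)
        (fun x : Fin n → ℤ => (Admissible x ∧ ¬ height x ≤ (rad x : ℝ) ^ M) ∧
          ∀ i j, i ≠ j → IsCoprime (x i) (x j)) A) → NearCoprime n A M G θ g := by
      intro g hg t ht
      by_contra e3
      unfold GoodCoprime at e3
      push Not at e3
      obtain ⟨x, hx, hco, hd, hh, hr⟩ := e3
      exact (hg t ht).2 ⟨x, ⟨⟨hx, not_le.2 hr⟩, hco⟩, hh, hd⟩
    exact law_mono a hm

end Pool.Agent.Results.MP_a95293_nt.AliquotValues
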