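import Pool.Agent.U536.CF.F
import Pool.Agent.Results.MP_a95293_nt.MultiplicativeValues

/-!
# The `n`-term abc conjecture for all tuples with a divisor of the product near an integer with a large common factor with a value of a multiplicative function

Let `f` be a positive multiplicative function of at most polynomial growth such that `f p ≤ M p` for the large primes `p`,
with different values at different large primes; for example Euler's function or the sum of the divisors. Let `G` have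
steps bounded below by a positive constant and growth at most `v^d`, for example `α v^d`. Let `b < 1` and `0 ≤ c < 2 b -
1`. For all `m ≤ N` but `N exp (-(log N)^c)`, for EVERY integer `w ≥ exp ((log N)^b)` with `gcd(w, f(m)) ≥ w^ρ`, EVERY
integer `t` with `|t - G w| ≤ w^κ` is such that all admissible `n`-tuples `x` with `t ∣ x_1 ⋯ x_n` and `max |x_j| ≤ t ^ A`
satisfy `max |x_j| ≤ rad (x_1 ⋯ x_n) ^ M`; and the same for the tuples of pairwise coprime integers if `d A (1 - 1 / n) /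
M + κ < ρ`, if `n ≥ 3`, `A > 0`, `M > 0`, `κ ≥ 0` and `d A (1 - 1 / binom(n, ⌊n/2⌋)) / M + κ < ρ ≤ 1`. The integers `w`
include all large divisors of `f(m)` and their multiples by small integers; for Euler's function, the orders of the
elements of the group of units modulo `m`.

Proof. Write `m = k u` with `u` squarefree and composed of primes larger than `N^(1/J)`, `J = (log N)^a`, and `k ≤ exp (4
(log N)^a)`; this is possible for all `m ≤ N` but very few. If `v ∣ f(k) f(u)`, then `v = g v'` with `g ∣ f(k)` and `v' ∣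
∏ f(p)`, and the number of such `u ≤ N / k` is at most `N / (k v')` times `(log N)^O(J)` times the number `τ_J(v')` of the
ordered factorizations of `v'` into `J` factors. The inequality `τ_J^q ≤ τ_K` for `K ≥ J^q` and Hölder's inequality bound
the sum over the sparse set of the exceptional `v`. The file `MultiplicativeValues` of the starting library treats the
integers `w = f(m)`, with `N / (log N)^U` exceptions.
-/

set_option autoImplicit false

namespace Pool.Agent.Results.MP_a95293_nt.CommonFactors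

open Finset
open DivisorsInWindows (Admissible rad height Good GoodCoprime κ_nonneg hcount hcount_coprime)
open Pool.Agent.N733.TG (LM Expanding lm_totient lm_sigma expanding_pow)
open Pool.Agent.U536.CF (Common common_win_nat common_of_dvd common_order)

/-- **The `n`-term abc conjecture for all tuples with a divisor of the product near an integer with a large common factor with
a value of a multiplicative function.** Let `f` be multiplicative and positive, of at most polynomial growth, with `f p ≤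
M p` at the large primes, and injective there. Let `G` have steps `≥ a > 0` and growth at most `v^d`. Let `b < 1` and `0 ≤
c < 2 b - 1`, `n ≥ 3`, `A > 0`, `M > 0`, `κ ≥ 0` and `d A (1 - 1 / binom(n, ⌊n/2⌋)) / M + κ < ρ ≤ 1`. For all large `N`,
for all `m ≤ N` but `N exp (-(log N)^c)`, for EVERY integer `w ≥ exp ((log N)^b)` with `gcd(w, f(m)) ≥ w^ρ`, EVERY integer
`t` with `|t - G w| ≤ w^κ` is such that all admissible `n`-tuples `x` with `t ∣ x_1 ⋯ x_n` and `max |x_j| ≤ t ^ A` satisfy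
`max |x_j| ≤ rad (x_1 ⋯ x_n) ^ M`; and the same for the tuples of pairwise coprime integers if `d A (1 - 1 / n) / M + κ <
ρ`. All divisors `w ≥ exp ((log N)^b)` of `f(m)` are such integers `w`, and for Euler's function the orders `≥ exp ((log
N)^b)` of the units modulo `m`. Euler's function and the sum of the divisors are examples of `f`, and `α v^d` with `α >
0`, `d ≥ 1` is an example of `G`. -/
theorem result :
    (∀ n : ℕ, 3 ≤ n → ∀ f : ℕ → ℕ, LM f → ∀ (G : ℕ → ℝ) (d : ℝ), Expanding G d → ∀ κ A M ρ b c : ℝ, 0 ≤ κ → 0 < A → 0 < M →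
      ρ ≤ 1 → b < 1 → 0 ≤ c → c < 2 * b - 1 →
      (d * (A * ((1 - 1 / (n.choose (n / 2) : ℝ)) / M)) + κ < ρ → ∃ N₀ : ℕ, ∀ N : ℕ, N₀ ≤ N →
        ({m : ℕ | 1 ≤ m ∧ m ≤ N ∧ ¬ ∀ w : ℕ, Common f b ρ N m w → ∀ t : ℕ, |(t : ℝ) - G w| ≤ (w : ℝ) ^ κ →
          Good n A M t}.ncard : ℝ) ≤ N * Real.exp (-(Real.log N ^ c))) ∧
      (d * (A * ((1 - 1 / (n : ℝ)) / M)) + κ < ρ → ∃ N₀ : ℕ, ∀ N : ℕ, N₀ ≤ N →
        ({m : ℕ | 1 ≤ m ∧ m ≤ N ∧ ¬ ∀ w : ℕ, Common f b ρ N m w → ∀ t : ℕ, |(t : ℝ) - G w| ≤ (w : ℝ) ^ κ →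
          GoodCoprime n A M t}.ncard : ℝ) ≤ N * Real.exp (-(Real.log N ^ c)))) ∧
    (LM Nat.totient ∧ LM (fun m => ∑ d ∈ m.divisors, d)) ∧
    (∀ α d : ℝ, 0 < α → 1 ≤ d → Expanding (fun v => α * (v : ℝ) ^ d) d) ∧
    (∀ (f : ℕ → ℕ) (b ρ : ℝ) (N m w : ℕ), ρ ≤ 1 → Real.exp (Real.log N ^ b) ≤ (w : ℝ) → w ∣ f m → Common f b ρ N m w) ∧
    ∀ (b ρ : ℝ) (N m : ℕ), ρ ≤ 1 → ∀ x : (ZMod m)ˣ, Real.exp (Real.log N ^ b) ≤ (orderOf x : ℝ) →
      Common Nat.totient b ρ N m (orderOf x) := by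
  refine ⟨?_, ⟨lm_totient, lm_sigma⟩, fun α d hα hd => expanding_pow hα hd, fun f b ρ N m w hρ hw hd => common_of_dvd hρ hw hd,
    fun b ρ N m hρ x hx => common_order hρ x hx⟩
  classical
  intro n hn f hf G d hG κ A M ρ b c hκ hA hM hρ hb hc hcb
  refine ⟨fun h1 => ?_, fun h1 => ?_⟩
  · obtain ⟨N₀, hN₀⟩ := common_win_nat
      (Pool.Agent.R559.NP.DivBad (n := n) (fun x : Fin n → ℤ => Admissible x ∧ ¬ height x ≤ (rad x : ℝ) ^ M) A) hf hG
      (s := A * ((1 - 1 / (n.choose (n / 2) : ℝ)) / M)) (κ := κ)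
      (mul_nonneg hA.le (div_nonneg (κ_nonneg n) hM.le)) hκ h1 hρ hb hc hcb
      (Pool.Agent.R559.NP.count_div (fun x hx => hx.1.ne_zero hn) hA (fun δ hδ => hcount hn hM δ hδ))
    refine ⟨N₀, fun N hN => le_trans ?_ (hN₀ N hN)⟩
    have hsub : {m : ℕ | 1 ≤ m ∧ m ≤ N ∧ ¬ ∀ w : ℕ, Common f b ρ N m w → ∀ t : ℕ, |(t : ℝ) - G w| ≤ (w : ℝ) ^ κ →
        Good n A M t} ⊆
        {m : ℕ | 1 ≤ m ∧ m ≤ N ∧ ∃ w : ℕ, Common f b ρ N m w ∧ ∃ t : ℕ, (t = 0 ∨ t ∈ Pool.Agent.R559.NP.DivBad (n := n)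
          (fun x : Fin n → ℤ => Admissible x ∧ ¬ height x ≤ (rad x : ℝ) ^ M) A) ∧
          |(t : ℝ) - G w| ≤ (w : ℝ) ^ κ} := by
      rintro m ⟨e1, e2, e3⟩
      unfold Good at e3
      push Not at e3
      obtain ⟨w, hw, t, ht, x, hx, hd, hh, hr⟩ := e3
      exact ⟨e1, e2, w, hw, t, Or.inr ⟨x, ⟨hx, not_le.2 hr⟩, hh, hd⟩, ht⟩
    exact_mod_cast Set.ncard_le_ncard hsub ((Set.finite_Icc 1 N).subset fun m hm => ⟨hm.1, hm.2.1⟩)
  · have hs : 0 ≤ (1 - 1 / (n : ℝ)) / M := by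
      have h3 : (3 : ℝ) ≤ n := by exact_mod_cast hn
      refine div_nonneg ?_ hM.le
      rw [sub_nonneg, div_le_one (by linarith)]
      linarith
    obtain ⟨N₀, hN₀⟩ := common_win_nat
      (Pool.Agent.R559.NP.DivBad (n := n) (fun x : Fin n → ℤ => (Admissible x ∧ ¬ height x ≤ (rad x : ℝ) ^ M) ∧
        ∀ i j, i ≠ j → IsCoprime (x i) (x j)) A) hf hG
      (s := A * ((1 - 1 / (n : ℝ)) / M)) (κ := κ) (mul_nonneg hA.le hs) hκ h1 hρ hb hc hcb
      (Pool.Agent.R559.NP.count_div (fun x hx => hx.1.1.ne_zero hn) hA (fun δ hδ => hcount_coprime hn hM δ hδ))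
    refine ⟨N₀, fun N hN => le_trans ?_ (hN₀ N hN)⟩
    have hsub : {m : ℕ | 1 ≤ m ∧ m ≤ N ∧ ¬ ∀ w : ℕ, Common f b ρ N m w → ∀ t : ℕ, |(t : ℝ) - G w| ≤ (w : ℝ) ^ κ →
        GoodCoprime n A M t} ⊆
        {m : ℕ | 1 ≤ m ∧ m ≤ N ∧ ∃ w : ℕ, Common f b ρ N m w ∧ ∃ t : ℕ, (t = 0 ∨ t ∈ Pool.Agent.R559.NP.DivBad (n := n)
          (fun x : Fin n → ℤ => (Admissible x ∧ ¬ height x ≤ (rad x : ℝ) ^ M) ∧
            ∀ i j, i ≠ j → IsCoprime (x i) (x j)) A) ∧
          |(t : ℝ) - G w| ≤ (w : ℝ) ^ κ} := by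
      rintro m ⟨e1, e2, e3⟩
      unfold GoodCoprime at e3
      push Not at e3
      obtain ⟨w, hw, t, ht, x, hx, hco, hd, hh, hr⟩ := e3
      exact ⟨e1, e2, w, hw, t, Or.inr ⟨x, ⟨⟨hx, not_le.2 hr⟩, hco⟩, hh, hd⟩, ht⟩
    exact_mod_cast Set.ncard_le_ncard hsub ((Set.finite_Icc 1 N).subset fun m hm => ⟨hm.1, hm.2.1⟩)

end Pool.Agent.Results.MP_a95293_nt.CommonFactors
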