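import Pool.Agent.U536.DS.F
import Pool.Agent.Results.MP_a95293_nt.MultiplicativeValues

/-!
# The `n`-term abc conjecture for all tuples with a divisor of the product near an integral combination of two divisors of a
value of a multiplicative function

Let `f` be a positive multiplicative function of at most polynomial growth such that `f p ≤ M p` for the large primes `p`,
with different values at different large primes; for example Euler's function or the sum of the divisors. Let `G` have steps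
bounded below by a positive constant and growth at most `v^d`, for example `α v^d`. Let `b < 1` and `0 ≤ c < 2 b - 1`. For
all `m ≤ N` but `N exp (-(log N)^c)`, for EVERY integer `w ≥ exp ((log N)^b)` of the form `w = u s + v s'` with divisors
`s`, `s'` of `f(m)` and integers `|u|, |v| ≤ exp ((log N)^θ)`, EVERY integer `t` with `|t - G w| ≤ w^κ` is such that all
admissible `n`-tuples `x` with `t ∣ x_1 ⋯ x_n` and `max |x_j| ≤ t ^ A` satisfy `max |x_j| ≤ rad (x_1 ⋯ x_n) ^ M`; and the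
same for the tuples of pairwise coprime integers if `d A (1 - 1 / n) / M + κ < 1`, if `n ≥ 3`, `A > 0`, `M > 0`, `κ ≥ 0` and
`d A (1 - 1 / binom(n, ⌊n/2⌋)) / M + κ < 1`, `θ < b`. The integers `w` include all large divisors of `f(m)` and the large
sums and differences of ANY two divisors of `f(m)`; for Euler's function, those of the orders of any two units modulo `m`.

Proof. Write `m = k u` with `u` squarefree and composed of primes larger than `N^(1/J)`, `J = (log N)^a`, and `k ≤ exp (4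
(log N)^a)`; this is possible for all `m ≤ N` but very few. If `v ∣ f(k) f(u)`, then `v = g v'` with `g ∣ f(k)` and `v' ∣ ∏
f(p)`, and the number of such `u ≤ N / k` is at most `N / (k v')` times `(log N)^O(J)` times the number `τ_J(v')` of the
ordered factorizations of `v'` into `J` factors. Take for `v` the least common multiple of `s` and `t`: the sum of `1 / [s,
t]` over the pairs `s, t ≤ X` with `u s + v t = w` is at most `4 U (1 + log X) τ(w) / w` if `|u|, |v| ≤ U`; the inequality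
`τ_J^q ≤ τ_K` for `K ≥ J^q` and Hölder's inequality bound the sum over the pairs with exceptional `w`. The integers of the
hand-in `CommonFactors` of this page have a large common factor with `f(m)`; the sums and differences of two divisors of
`f(m)` have in general none. The file `MultiplicativeValues` of the starting library treats the integers `w = f(m)` only,
with `N / (log N)^U` exceptions.
-/

set_option autoImplicit false

namespace Pool.Agent.Results.MP_a95293_nt.DivisorSums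

open Finset
open DivisorsInWindows (Admissible rad height Good GoodCoprime κ_nonneg hcount hcount_coprime)
open Pool.Agent.N733.TG (LM Expanding lm_totient lm_sigma expanding_pow)
open Pool.Agent.U536.DS (Comb comb_win_nat comb_pm comb_orders)

/-- **The `n`-term abc conjecture for all tuples with a divisor of the product near an integral combination of two divisors of a
value of a multiplicative function.** Let `f` be multiplicative and positive, of at most polynomial growth, with `f p ≤ M p`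
at the large primes, and injective there. Let `G` have steps `≥ a > 0` and growth at most `v^d`. Let `b < 1` and `0 ≤ c < 2
b - 1`, `n ≥ 3`, `A > 0`, `M > 0`, `κ ≥ 0` and `d A (1 - 1 / binom(n, ⌊n/2⌋)) / M + κ < 1`, `θ < b`. For all large `N`, for
all `m ≤ N` but `N exp (-(log N)^c)`, for EVERY integer `w ≥ exp ((log N)^b)` of the form `w = u s + v s'` with divisors
`s`, `s'` of `f(m)` and integers `|u|, |v| ≤ exp ((log N)^θ)`, EVERY integer `t` with `|t - G w| ≤ w^κ` is such that all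
admissible `n`-tuples `x` with `t ∣ x_1 ⋯ x_n` and `max |x_j| ≤ t ^ A` satisfy `max |x_j| ≤ rad (x_1 ⋯ x_n) ^ M`; and the
same for the tuples of pairwise coprime integers if `d A (1 - 1 / n) / M + κ < 1`. All the sums and differences `≥ exp ((log
N)^b)` of two divisors of `f(m)` are such integers `w`, and for Euler's function those of the orders of two units modulo
`m`. Euler's function and the sum of the divisors are examples of `f`, and `α v^d` with `α > 0`, `d ≥ 1` is an example of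
`G`. -/
theorem result :
    (∀ n : ℕ, 3 ≤ n → ∀ f : ℕ → ℕ, LM f → ∀ (G : ℕ → ℝ) (d : ℝ), Expanding G d → ∀ κ A M θ b c : ℝ, 0 ≤ κ → 0 < A → 0 < M →
      θ < b → b < 1 → 0 ≤ c → c < 2 * b - 1 →
      (d * (A * ((1 - 1 / (n.choose (n / 2) : ℝ)) / M)) + κ < 1 → ∃ N₀ : ℕ, ∀ N : ℕ, N₀ ≤ N →
        ({m : ℕ | 1 ≤ m ∧ m ≤ N ∧ ¬ ∀ w : ℕ, Comb f b θ N m w → ∀ t : ℕ, |(t : ℝ) - G w| ≤ (w : ℝ) ^ κ →
          Good n A M t}.ncard : ℝ) ≤ N * Real.exp (-(Real.log N ^ c))) ∧
      (d * (A * ((1 - 1 / (n : ℝ)) / M)) + κ < 1 → ∃ N₀ : ℕ, ∀ N : ℕ, N₀ ≤ N →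
        ({m : ℕ | 1 ≤ m ∧ m ≤ N ∧ ¬ ∀ w : ℕ, Comb f b θ N m w → ∀ t : ℕ, |(t : ℝ) - G w| ≤ (w : ℝ) ^ κ →
          GoodCoprime n A M t}.ncard : ℝ) ≤ N * Real.exp (-(Real.log N ^ c)))) ∧
    (LM Nat.totient ∧ LM (fun m => ∑ d ∈ m.divisors, d)) ∧
    (∀ α d : ℝ, 0 < α → 1 ≤ d → Expanding (fun v => α * (v : ℝ) ^ d) d) ∧
    (∀ (f : ℕ → ℕ) (b θ : ℝ) (N m s t : ℕ), s ∣ f m → t ∣ f m →
      (Real.exp (Real.log N ^ b) ≤ ((s + t : ℕ) : ℝ) → Comb f b θ N m (s + t)) ∧
      (Real.exp (Real.log N ^ b) ≤ ((s - t : ℕ) : ℝ) → Comb f b θ N m (s - t)) ∧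
      (Real.exp (Real.log N ^ b) ≤ (s : ℝ) → Comb f b θ N m s)) ∧
    ∀ (b θ : ℝ) (N m : ℕ) (x y : (ZMod m)ˣ),
      (Real.exp (Real.log N ^ b) ≤ ((orderOf x + orderOf y : ℕ) : ℝ) → Comb Nat.totient b θ N m (orderOf x + orderOf y)) ∧
      (Real.exp (Real.log N ^ b) ≤ ((orderOf x - orderOf y : ℕ) : ℝ) → Comb Nat.totient b θ N m (orderOf x - orderOf y)) := by
  refine ⟨?_, ⟨lm_totient, lm_sigma⟩, fun α d hα hd => expanding_pow hα hd, fun f b θ N m s t hs ht => comb_pm hs ht,
    fun b θ N m x y => comb_orders x y⟩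
  classical
  intro n hn f hf G d hG κ A M θ b c hκ hA hM hθ hb hc hcb
  refine ⟨fun h1 => ?_, fun h1 => ?_⟩
  · obtain ⟨N₀, hN₀⟩ := comb_win_nat
      (Pool.Agent.R559.NP.DivBad (n := n) (fun x : Fin n → ℤ => Admissible x ∧ ¬ height x ≤ (rad x : ℝ) ^ M) A) hf hG
      (s := A * ((1 - 1 / (n.choose (n / 2) : ℝ)) / M)) (κ := κ)
      (mul_nonneg hA.le (div_nonneg (κ_nonneg n) hM.le)) hκ h1 hθ hb hc hcb
      (Pool.Agent.R559.NP.count_div (fun x hx => hx.1.ne_zero hn) hA (fun δ hδ => hcount hn hM δ hδ))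
    refine ⟨N₀, fun N hN => le_trans ?_ (hN₀ N hN)⟩
    have hsub : {m : ℕ | 1 ≤ m ∧ m ≤ N ∧ ¬ ∀ w : ℕ, Comb f b θ N m w → ∀ t : ℕ, |(t : ℝ) - G w| ≤ (w : ℝ) ^ κ →
        Good n A M t} ⊆
        {m : ℕ | 1 ≤ m ∧ m ≤ N ∧ ∃ w : ℕ, Comb f b θ N m w ∧ ∃ t : ℕ, (t = 0 ∨ t ∈ Pool.Agent.R559.NP.DivBad (n := n)
          (fun x : Fin n → ℤ => Admissible x ∧ ¬ height x ≤ (rad x : ℝ) ^ M) A) ∧
          |(t : ℝ) - G w| ≤ (w : ℝ) ^ κ} := by
      rintro m ⟨e1, e2, e3⟩
      unfold Good at e3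
      push Not at e3
      obtain ⟨w, hw, t, ht, x, hx, hd, hh, hr⟩ := e3
      exact ⟨e1, e2, w, hw, t, Or.inr ⟨x, ⟨hx, not_le.2 hr⟩, hh, hd⟩, ht⟩
    exact_mod_cast Set.ncard_le_ncard hsub ((Set.finite_Icc 1 N).subset fun m hm => ⟨hm.1, hm.2.1⟩)
  · have hs : 0 ≤ (1 - 1 / (n : ℝ)) / M := by
      have h3 : (3 : ℝ) ≤ n := by exact_mod_cast hn
      refine div_nonneg ?_ hM.le
      rw [sub_nonneg, div_le_one (by linarith)]
      linarith
    obtain ⟨N₀, hN₀⟩ := comb_win_nat
      (Pool.Agent.R559.NP.DivBad (n := n) (fun x : Fin n → ℤ => (Admissible x ∧ ¬ height x ≤ (rad x : ℝ) ^ M) ∧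
        ∀ i j, i ≠ j → IsCoprime (x i) (x j)) A) hf hG
      (s := A * ((1 - 1 / (n : ℝ)) / M)) (κ := κ) (mul_nonneg hA.le hs) hκ h1 hθ hb hc hcb
      (Pool.Agent.R559.NP.count_div (fun x hx => hx.1.1.ne_zero hn) hA (fun δ hδ => hcount_coprime hn hM δ hδ))
    refine ⟨N₀, fun N hN => le_trans ?_ (hN₀ N hN)⟩
    have hsub : {m : ℕ | 1 ≤ m ∧ m ≤ N ∧ ¬ ∀ w : ℕ, Comb f b θ N m w → ∀ t : ℕ, |(t : ℝ) - G w| ≤ (w : ℝ) ^ κ →
        GoodCoprime n A M t} ⊆
        {m : ℕ | 1 ≤ m ∧ m ≤ N ∧ ∃ w : ℕ, Comb f b θ N m w ∧ ∃ t : ℕ, (t = 0 ∨ t ∈ Pool.Agent.R559.NP.DivBad (n := n)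
          (fun x : Fin n → ℤ => (Admissible x ∧ ¬ height x ≤ (rad x : ℝ) ^ M) ∧
            ∀ i j, i ≠ j → IsCoprime (x i) (x j)) A) ∧
          |(t : ℝ) - G w| ≤ (w : ℝ) ^ κ} := by
      rintro m ⟨e1, e2, e3⟩
      unfold GoodCoprime at e3
      push Not at e3
      obtain ⟨w, hw, t, ht, x, hx, hco, hd, hh, hr⟩ := e3
      exact ⟨e1, e2, w, hw, t, Or.inr ⟨x, ⟨⟨hx, not_le.2 hr⟩, hco⟩, hh, hd⟩, ht⟩
    exact_mod_cast Set.ncard_le_ncard hsub ((Set.finite_Icc 1 N).subset fun m hm => ⟨hm.1, hm.2.1⟩)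

end Pool.Agent.Results.MP_a95293_nt.DivisorSums
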