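import Mathlib
import Pool.Agent.N906.NT.All
import Pool.Agent.U189.NT.Lim

/-!
# The `n`-term abc conjecture: the number of the exceptions of each type up to the second order term, and the type of
# almost all exceptions

Let `n ≥ 3` and `1/n < M < 3/(3n-1)`. An exception is an admissible tuple `x` (integers with greatest common divisor
one, sum zero and no vanishing proper subsum) with `max |x_i| > rad(x_1 ⋯ x_n) ^ M`. A prime `p` divides at most `n - 2` of
the coordinates; let `supp p x` be the set of the `i` with `p ∣ x_i`. We determine for every simplicial complex `Δ` on the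
set of the coordinates (containing all vertices; the largest faces have `r ≤ n - 2` elements, and there are `t` faces with
`r` elements) the number of the exceptions of height at most `X` all of whose sets `supp p x` belong to `Δ`, up to the
second order term: it is

  `X ^ (1/M - 1) * exp ((c(r, t) + o(1)) (log X / log log X) ^ (r/(r+1)))`,
  `c(r, t) = ((r+1)/r) ^ ((2r+1)/(r+1)) * t ^ (1/(r+1)) * (n - 1/M) ^ (r/(r+1))`.

In particular (all sets with at most `n - 2` elements) the number of all exceptions is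
`X ^ (1/M - 1) * exp ((c(n-2, n(n-1)/2) + o(1)) (log X / log log X) ^ ((n-2)/(n-1)))`, and for `n ≥ 4` almost all exceptions
have the following property: EVERY set `S` of `n - 2` coordinates is the set of the coordinates divisible by `p` for some
prime `p`. The proportion of the other exceptions is
`exp (-(c(n-2, n(n-1)/2) - c(n-2, n(n-1)/2-1) + o(1)) (log X / log log X) ^ ((n-2)/(n-1)))`.
-/

set_option autoImplicit false

namespace Pool.Agent.Results.MP_a95293_nt.TypesOfExceptions

open Finset Filter Topology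

/-- the admissible tuples of the problem: greatest common divisor one, sum zero, no vanishing proper subsum -/
def Admissible {n : ℕ} (x : Fin n → ℤ) : Prop :=
  univ.gcd x = 1 ∧ ∑ i, x i = 0 ∧ ∀ S : Finset (Fin n), S.Nonempty → S ≠ univ → ∑ i ∈ S, x i ≠ 0

/-- the product of the primes that divide `a` -/
def rad (a : ℤ) : ℕ := ∏ p ∈ a.natAbs.primeFactors, p

/-- `max |x_i|` -/
def height {n : ℕ} (x : Fin n → ℤ) : ℕ := univ.sup fun i => (x i).natAbs

/-- the admissible tuples with `max |x_i| ≤ X` that violate `max |x_i| ≤ rad (x_1 ⋯ x_n) ^ M` -/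
def Exceptions (n : ℕ) (M X : ℝ) : Set (Fin n → ℤ) :=
  {x | Admissible x ∧ (height x : ℝ) ≤ X ∧ (rad (∏ i, x i) : ℝ) ^ M < height x}

/-- the set of the coordinates divisible by `p` -/
def supp (p : ℕ) {n : ℕ} (x : Fin n → ℤ) : Finset (Fin n) := univ.filter fun i => (p : ℤ) ∣ x i

/-- `Δ` is a simplicial complex on the set of the coordinates which contains all the vertices, its faces have at most
`r` elements, and `t ≥ 1` of them have `r` elements -/
def IsComplex {n : ℕ} (Δ : Finset (Finset (Fin n))) (r t : ℕ) : Prop :=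
  (∀ i, {i} ∈ Δ) ∧ (∀ s ∈ Δ, ∀ s' ⊆ s, s' ∈ Δ) ∧ (∀ s ∈ Δ, s.card ≤ r) ∧
    (Δ.filter fun s => s.card = r).card = t ∧ 1 ≤ t

/-- the exceptions of type `Δ`: for each prime the set of the coordinates divisible by it belongs to `Δ` -/
def OfType (n : ℕ) (M : ℝ) (Δ : Finset (Finset (Fin n))) (X : ℝ) : Set (Fin n → ℤ) :=
  {x | x ∈ Exceptions n M X ∧ ∀ p : ℕ, p.Prime → supp p x ∈ Δ}

/-- the exceptions for which some set with `n - 2` elements is not of the form `supp p x` -/
def Special (n : ℕ) (M X : ℝ) : Set (Fin n → ℤ) :=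
  {x | x ∈ Exceptions n M X ∧ ∃ S : Finset (Fin n), S.card = n - 2 ∧ ∀ p : ℕ, p.Prime → supp p x ≠ S}

/-- the constant `((r+1)/r) ^ ((2r+1)/(r+1)) * t ^ (1/(r+1)) * (n - 1/M) ^ (r/(r+1))` -/
noncomputable def const (n : ℕ) (M : ℝ) (r t : ℕ) : ℝ :=
  (((r : ℝ) + 1) / r) ^ ((2 * (r : ℝ) + 1) / (r + 1)) * (t : ℝ) ^ (1 / ((r : ℝ) + 1)) *
    ((n : ℝ) - 1 / M) ^ ((r : ℝ) / (r + 1))

/-- the scale `(log X / log log X) ^ ρ` -/
noncomputable def scale (ρ X : ℝ) : ℝ := (Real.log X / Real.log (Real.log X)) ^ ρ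

/-- `N(X) = X ^ e * exp ((c + o(1)) (log X / log log X) ^ ρ)` -/
def SecondOrder (N : ℝ → ℕ) (e c ρ : ℝ) : Prop :=
  Tendsto (fun X : ℝ => (Real.log (N X : ℝ) - e * Real.log X) / scale ρ X) atTop (𝓝 c)

/-! ### Proofs -/

theorem rad_eq {n : ℕ} (x : Fin n → ℤ) :
    rad (∏ i, x i) = Pool.Agent.N906.NT.rr (Pool.Agent.N906.NT.ab x) := by
  unfold rad Pool.Agent.N906.NT.rr Pool.Agent.N906.NT.pr Pool.Agent.N906.NT.ab
  rw [← Int.natAbsHom_apply, map_prod]
  rfl

theorem supp_eq {n : ℕ} (p : ℕ) (x : Fin n → ℤ) :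
    (univ.filter fun i => p ∣ Pool.Agent.N906.NT.ab x i) = supp p x := by
  unfold supp Pool.Agent.N906.NT.ab
  ext i
  rw [mem_filter, mem_filter, Int.natCast_dvd]

theorem ne_zero_of {n : ℕ} (hn : 3 ≤ n) {x : Fin n → ℤ} (hx : Admissible x) (i : Fin n) : x i ≠ 0 := by
  have h := hx.2.2 {i} (singleton_nonempty i) (by
    intro h
    have := congrArg card h
    rw [card_singleton, card_univ, Fintype.card_fin] at this
    omega)
  rwa [sum_singleton] at h

/-- a prime divides at most `n - 2` coordinates -/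
theorem supp_card {n : ℕ} (hn : 3 ≤ n) {x : Fin n → ℤ} (hx : Admissible x) {p : ℕ} (hp : p.Prime) :
    (supp p x).card ≤ n - 2 := by
  by_contra hcon
  push Not at hcon
  -- all coordinates are divisible by `p`
  have hall : ∀ i, (p : ℤ) ∣ x i := by
    intro i
    by_contra hi
    have h1 : univ.erase i ⊆ supp p x ∧ True := by
      refine ⟨?_, trivial⟩
      have hsub : supp p x ⊆ univ.erase i := by
        intro k hk
        rw [mem_erase]
        refine ⟨?_, mem_univ _⟩
        rintro rfl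
        exact hi (mem_filter.1 hk).2
      have hc : (univ.erase i : Finset (Fin n)).card = n - 1 := by
        rw [card_erase_of_mem (mem_univ i), card_univ, Fintype.card_fin]
      have := Finset.eq_of_subset_of_card_le hsub (by rw [hc]; omega)
      rw [this]
    have h2 : (p : ℤ) ∣ ∑ k ∈ univ.erase i, x k :=
      dvd_sum fun k hk => (mem_filter.1 (h1.1 hk)).2
    have h3 : x i + ∑ k ∈ univ.erase i, x k = 0 := by
      rw [add_sum_erase _ _ (mem_univ i)]
      exact hx.2.1
    apply hi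
    have h4 : x i = -∑ k ∈ univ.erase i, x k := by linarith
    rw [h4]
    exact (dvd_neg).2 h2
  have h5 : (p : ℤ) ∣ univ.gcd x := dvd_gcd fun i _ => hall i
  rw [hx.1] at h5
  have h6 := Int.natCast_dvd.1 h5
  rw [Int.natAbs_one] at h6
  exact hp.one_lt.ne' (Nat.dvd_one.1 h6)

theorem cx {n : ℕ} (hn : 3 ≤ n) {Δ : Finset (Finset (Fin n))} {r t : ℕ} (h : IsComplex Δ r t) :
    Pool.Agent.N906.NT.Cx Δ r t := by
  obtain ⟨h1, h2, h3, h4, h5⟩ := h
  have i0 : Fin n := ⟨0, by omega⟩
  refine ⟨?_, h5, h2 _ (h1 i0) _ (empty_subset _), h2, h3, h4⟩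
  have := h3 _ (h1 i0)
  rwa [card_singleton] at this

theorem adm_of {n : ℕ} {r : ℕ} (hr : r + 2 ≤ n) {Δ : Finset (Finset (Fin n))}
    (hΔ : ∀ s ∈ Δ, s.card ≤ r) {x : Fin n → ℤ} (h1 : ∑ i, x i = 0)
    (h3 : Pool.Agent.N906.NT.NV x) (h4 : Pool.Agent.N906.NT.Tp Δ (Pool.Agent.N906.NT.ab x)) :
    Admissible x := by
  refine ⟨?_, h1, h3⟩
  have hnorm : normalize (univ.gcd x) = univ.gcd x := Finset.normalize_gcd
  have h0 : ((univ.gcd x).natAbs : ℤ) = univ.gcd x := by
    rw [← Int.abs_eq_natAbs, Int.abs_eq_normalize, hnorm]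
  by_contra hg
  have hg1 : (univ.gcd x).natAbs ≠ 1 := by
    intro h
    rw [h] at h0
    exact hg h0.symm
  obtain ⟨p, hp, hpd⟩ := Nat.exists_prime_and_dvd hg1
  have h5 : (univ.filter fun i => p ∣ Pool.Agent.N906.NT.ab x i) = univ := by
    rw [filter_eq_self]
    intro i _
    have h6 : (p : ℤ) ∣ univ.gcd x := Int.natCast_dvd.2 hpd
    exact Int.natCast_dvd.1 (h6.trans (gcd_dvd (mem_univ i)))
  have h7 := hΔ _ (h4.2 p hp)
  rw [h5, card_univ, Fintype.card_fin] at h7
  omega

theorem type_eq {n : ℕ} (M : ℝ) (Δ : Finset (Finset (Fin n))) (X : ℝ) : OfType n M Δ X =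
    Pool.Agent.N906.NT.VV (fun x : Fin n → ℤ => Admissible x ∧ ∀ p : ℕ, p.Prime → supp p x ∈ Δ) M X := by
  unfold OfType Exceptions Pool.Agent.N906.NT.VV
  ext x
  rw [Set.mem_ofPred_eq, Set.mem_ofPred_eq, Set.mem_ofPred_eq, rad_eq]
  constructor
  · rintro ⟨⟨h1, h2, h3⟩, h4⟩
    exact ⟨⟨h1, h4⟩, h2, h3⟩
  · rintro ⟨⟨h1, h4⟩, h2, h3⟩
    exact ⟨⟨h1, h2, h3⟩, h4⟩

theorem exc_eq {n : ℕ} (M X : ℝ) : Exceptions n M X =
    Pool.Agent.N906.NT.VV (Admissible (n := n)) M X := by
  unfold Exceptions Pool.Agent.N906.NT.VV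
  ext x
  rw [Set.mem_ofPred_eq, Set.mem_ofPred_eq, rad_eq]
  rfl

theorem cup : Pool.Agent.U189.NT.C_UP :=
  Pool.Agent.U189.NT.up Pool.Agent.N475.NT.red
    (Pool.Agent.U189.NT.upa Pool.Agent.N543.NT.seq Pool.Agent.N906.NT.gupn_all)
    (Pool.Agent.N434.NT.upb Pool.Agent.N543.NT.seq Pool.Agent.N130.NT.prm Pool.Agent.N906.NT.gupn_all)

theorem clo : Pool.Agent.U189.NT.C_LO :=
  Pool.Agent.U189.NT.lo Pool.Agent.N906.NT.winn_all
    (Pool.Agent.U189.NT.lown (Pool.Agent.N353.NT.box Pool.Agent.N353.NT.lat))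

/-- the exceptions of a given type -/
theorem second_type {n : ℕ} (hn : 3 ≤ n) {M : ℝ} (h1 : 1 / (n : ℝ) < M) (h2 : M < 3 / (3 * n - 1))
    {Δ : Finset (Finset (Fin n))} {r t : ℕ} (hΔ : IsComplex Δ r t) (hr : r + 2 ≤ n) :
    SecondOrder (fun X => (OfType n M Δ X).ncard) (1 / M - 1) (const n M r t) ((r : ℝ) / (r + 1)) := by
  unfold SecondOrder
  simp only [type_eq]
  exact Pool.Agent.U189.NT.limit cup clo (cx hn hΔ) hΔ.1 hr h1 h2
    (fun x : Fin n → ℤ => Admissible x ∧ ∀ p : ℕ, p.Prime → supp p x ∈ Δ)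
    (fun x hx => ⟨hx.1.2.1, ne_zero_of hn hx.1, fun i => Int.natAbs_pos.2 (ne_zero_of hn hx.1 i),
      fun p hp => by
        have := hx.2 p hp
        rw [← supp_eq] at this
        exact this⟩)
    (fun x i1 _ i3 i4 => ⟨adm_of hr hΔ.2.2.1 i1 i3 i4, fun p hp => by
        rw [← supp_eq]
        exact i4.2 p hp⟩)

/-- the complex of all sets with at most `n - 2` elements -/
def full (n : ℕ) : Finset (Finset (Fin n)) := univ.filter fun s => s.card ≤ n - 2

theorem full_complex {n : ℕ} (hn : 3 ≤ n) : IsComplex (full n) (n - 2) (n.choose 2) := by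
  refine ⟨fun i => ?_, fun s hs s' hs' => ?_, fun s hs => (mem_filter.1 hs).2, ?_, Nat.choose_pos (by omega)⟩
  · unfold full
    rw [mem_filter, card_singleton]
    exact ⟨mem_univ _, by omega⟩
  · unfold full at hs ⊢
    rw [mem_filter] at hs ⊢
    exact ⟨mem_univ _, (card_le_card hs').trans hs.2⟩
  · have h : ((full n).filter fun s => s.card = n - 2) = (univ : Finset (Fin n)).powersetCard (n - 2) := by
      ext s
      unfold full
      rw [mem_filter, mem_filter, mem_powersetCard]
      constructor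
      · rintro ⟨_, h⟩
        exact ⟨subset_univ _, h⟩
      · rintro ⟨_, h⟩
        exact ⟨⟨mem_univ _, h.le⟩, h⟩
    rw [h, card_powersetCard, card_univ, Fintype.card_fin]
    exact Nat.choose_symm_of_eq_add (by omega)

theorem exc_type {n : ℕ} (hn : 3 ≤ n) (M X : ℝ) : OfType n M (full n) X = Exceptions n M X := by
  unfold OfType
  ext x
  rw [Set.mem_ofPred_eq]
  refine ⟨fun h => h.1, fun h => ⟨h, fun p hp => ?_⟩⟩
  unfold full
  rw [mem_filter]
  exact ⟨mem_univ _, supp_card hn h.1 hp⟩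

/-- the complex of all sets with at most `n - 2` elements other than `S` -/
def without {n : ℕ} (S : Finset (Fin n)) : Finset (Finset (Fin n)) := (full n).erase S

theorem without_complex {n : ℕ} (hn : 4 ≤ n) {S : Finset (Fin n)} (hS : S.card = n - 2) :
    IsComplex (without S) (n - 2) (n.choose 2 - 1) := by
  obtain ⟨h1, h2, h3, h4, _⟩ := full_complex (n := n) (by omega)
  refine ⟨fun i => ?_, fun s hs s' hs' => ?_, fun s hs => h3 s (mem_of_mem_erase hs), ?_, ?_⟩
  · unfold without
    rw [mem_erase]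
    refine ⟨?_, h1 i⟩
    rintro rfl
    rw [card_singleton] at hS
    omega
  · unfold without at hs ⊢
    rw [mem_erase] at hs ⊢
    refine ⟨?_, h2 s hs.2 s' hs'⟩
    rintro rfl
    have h5 := h3 s hs.2
    exact hs.1 (Finset.eq_of_subset_of_card_le hs' (by omega)).symm
  · unfold without
    have h5 : ((full n).erase S).filter (fun s => s.card = n - 2) =
        ((full n).filter fun s => s.card = n - 2).erase S := by
      rw [filter_erase]
    rw [h5, card_erase_of_mem, h4]
    rw [mem_filter]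
    refine ⟨?_, hS⟩
    unfold full
    rw [mem_filter]
    exact ⟨mem_univ _, hS.le⟩
  · have h6 : 2 ≤ n.choose 2 := by
      have : (3 : ℕ).choose 2 ≤ n.choose 2 := Nat.choose_le_choose 2 (by omega)
      have h7 : (3 : ℕ).choose 2 = 3 := by decide
      omega
    omega

theorem special_eq {n : ℕ} (hn : 4 ≤ n) (M X : ℝ) : Special n M X =
    ⋃ S ∈ (univ : Finset (Fin n)).powersetCard (n - 2), OfType n M (without S) X := by
  ext x
  rw [Set.mem_iUnion₂]
  constructor
  · rintro ⟨hx, S, hS, h⟩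
    refine ⟨S, mem_powersetCard.2 ⟨subset_univ _, hS⟩, hx, fun p hp => ?_⟩
    unfold without full
    rw [mem_erase, mem_filter]
    exact ⟨h p hp, mem_univ _, supp_card (by omega) hx.1 hp⟩
  · rintro ⟨S, hS, hx, h⟩
    refine ⟨hx, S, (mem_powersetCard.1 hS).2, fun p hp => ?_⟩
    have h1 := h p hp
    unfold without at h1
    rw [mem_erase] at h1
    exact h1.1

theorem const_pos {n : ℕ} (hn : 3 ≤ n) {M : ℝ} (h1 : 1 / (n : ℝ) < M) {r t : ℕ} (hr : 1 ≤ r) (ht : 1 ≤ t) :
    0 < const n M r t := by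
  have hn0 : (0 : ℝ) < n := by exact_mod_cast (by omega : 0 < n)
  have hM : 0 < M := lt_trans (by positivity) h1
  have hκ : 0 < (n : ℝ) - 1 / M := by
    rw [sub_pos, div_lt_iff₀ hM]
    rw [div_lt_iff₀ hn0] at h1
    linarith
  have hr0 : (0 : ℝ) < r := by exact_mod_cast hr
  have ht0 : (0 : ℝ) < t := by exact_mod_cast ht
  unfold const
  positivity

theorem const_lt {n : ℕ} (hn : 3 ≤ n) {M : ℝ} (h1 : 1 / (n : ℝ) < M) {r s t : ℕ} (hr : 1 ≤ r) (hst : s < t) :
    const n M r s < const n M r t := by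
  have hn0 : (0 : ℝ) < n := by exact_mod_cast (by omega : 0 < n)
  have hM : 0 < M := lt_trans (by positivity) h1
  have hκ : 0 < (n : ℝ) - 1 / M := by
    rw [sub_pos, div_lt_iff₀ hM]
    rw [div_lt_iff₀ hn0] at h1
    linarith
  have hr0 : (0 : ℝ) < r := by exact_mod_cast hr
  unfold const
  have h2 : (s : ℝ) ^ (1 / ((r : ℝ) + 1)) < (t : ℝ) ^ (1 / ((r : ℝ) + 1)) :=
    Real.rpow_lt_rpow (Nat.cast_nonneg _) (by exact_mod_cast hst) (by positivity)
  exact mul_lt_mul_of_pos_right (mul_lt_mul_of_pos_left h2 (by positivity)) (by positivity)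

theorem scale_tendsto {ρ : ℝ} (hρ : 0 < ρ) : Tendsto (scale ρ) atTop atTop := by
  have h := (Pool.Agent.N906.NT.Gs_tendsto hρ).comp Real.tendsto_log_atTop
  exact h

theorem nonneg_e {n : ℕ} (hn : 3 ≤ n) {M : ℝ} (h1 : 1 / (n : ℝ) < M) (h2 : M < 3 / (3 * n - 1)) :
    0 ≤ 1 / M - 1 := by
  have hn3 : (3 : ℝ) ≤ n := by exact_mod_cast hn
  have hM : 0 < M := lt_trans (by positivity) h1
  rw [lt_div_iff₀ (by linarith)] at h2
  rw [sub_nonneg, le_div_iff₀ hM]
  nlinarith

/-- the number is eventually not zero -/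
theorem eventually_ne {N : ℝ → ℕ} {e c ρ : ℝ} (hρ : 0 < ρ) (he : 0 ≤ e) (hc : 0 < c)
    (h : SecondOrder N e c ρ) : ∀ᶠ X : ℝ in atTop, N X ≠ 0 := by
  have h1 := h.eventually (lt_mem_nhds hc)
  filter_upwards [h1, (scale_tendsto hρ).eventually_gt_atTop 0, eventually_gt_atTop 1] with X g1 g2 g3 h0
  rw [h0, Nat.cast_zero, Real.log_zero, zero_sub, lt_div_iff₀ g2, zero_mul] at g1
  have := mul_nonneg he (Real.log_nonneg g3.le)
  linarith

/-- the second order term of a number between `N₀` and the sum of finitely many numbers `N i` -/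
theorem squeeze {ι : Type} (s : Finset ι) (N : ι → ℝ → ℕ) (N' : ℝ → ℕ) {i₀ : ι} (hi₀ : i₀ ∈ s) {e c ρ : ℝ}
    (hρ : 0 < ρ) (he : 0 ≤ e) (hc : 0 < c) (h : ∀ i ∈ s, SecondOrder (N i) e c ρ)
    (hlo : ∀ X, N i₀ X ≤ N' X) (hup : ∀ X, N' X ≤ ∑ i ∈ s, N i X) : SecondOrder N' e c ρ := by
  unfold SecondOrder
  rw [Metric.tendsto_atTop']
  intro ε hε
  have hs : (0 : ℝ) < s.card := by exact_mod_cast card_pos.2 ⟨i₀, hi₀⟩
  have hall : ∀ᶠ X : ℝ in atTop, ∀ i ∈ s,
      (Real.log (N i X : ℝ) - e * Real.log X) / scale ρ X < c + ε / 2 := by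
    rw [Filter.eventually_all_finset]
    intro i hi
    exact (h i hi).eventually (gt_mem_nhds (by linarith))
  have hlow := (h i₀ hi₀).eventually (lt_mem_nhds (show c - ε < c by linarith))
  have hne := eventually_ne hρ he hc (h i₀ hi₀)
  have hG := (scale_tendsto hρ).eventually_gt_atTop (max 0 (2 * Real.log s.card / ε))
  have key : ∀ᶠ X : ℝ in atTop, dist ((Real.log (N' X : ℝ) - e * Real.log X) / scale ρ X) c < ε := by
    filter_upwards [hall, hlow, hne, hG] with X g1 g2 g3 g4
    have hG0 : 0 < scale ρ X := lt_of_le_of_lt (le_max_left _ _) g4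
    have hG1 : 2 * Real.log s.card / ε < scale ρ X := lt_of_le_of_lt (le_max_right _ _) g4
    have hN0 : (0 : ℝ) < N i₀ X := by exact_mod_cast Nat.pos_of_ne_zero g3
    have hN1 : (N i₀ X : ℝ) ≤ N' X := by exact_mod_cast hlo X
    have hN'0 : (0 : ℝ) < N' X := hN0.trans_le hN1
    rw [Real.dist_eq, abs_sub_lt_iff]
    constructor
    · have h1 : ∀ i ∈ s, (N i X : ℝ) ≤ Real.exp (e * Real.log X + (c + ε / 2) * scale ρ X) := by
        intro i hi
        rcases Nat.eq_zero_or_pos (N i X) with h0 | h0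
        · rw [h0, Nat.cast_zero]
          exact (Real.exp_pos _).le
        · have h2 := g1 i hi
          rw [div_lt_iff₀ hG0] at h2
          rw [← Real.log_le_iff_le_exp (by exact_mod_cast h0)]
          linarith
      have h2 : (N' X : ℝ) ≤ s.card * Real.exp (e * Real.log X + (c + ε / 2) * scale ρ X) := by
        calc (N' X : ℝ) ≤ ∑ i ∈ s, (N i X : ℝ) := by exact_mod_cast hup X
          _ ≤ ∑ _i ∈ s, Real.exp (e * Real.log X + (c + ε / 2) * scale ρ X) := sum_le_sum h1
          _ = _ := by rw [sum_const, nsmul_eq_mul]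
      have h3 := Real.log_le_log hN'0 h2
      rw [Real.log_mul hs.ne' (Real.exp_pos _).ne', Real.log_exp] at h3
      rw [div_lt_iff₀ hε] at hG1
      have h4 : (Real.log (N' X : ℝ) - e * Real.log X) / scale ρ X < c + ε := by
        rw [div_lt_iff₀ hG0]
        nlinarith
      linarith
    · have h3 := Real.log_le_log hN0 hN1
      have h4 : (Real.log (N i₀ X : ℝ) - e * Real.log X) / scale ρ X ≤
          (Real.log (N' X : ℝ) - e * Real.log X) / scale ρ X := by
        apply div_le_div_of_nonneg_right _ hG0.le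
        linarith
      linarith
  rw [Filter.eventually_atTop] at key
  obtain ⟨X₀, hX₀⟩ := key
  exact ⟨X₀, fun X hX => hX₀ X hX.le⟩

theorem fin_exc (n : ℕ) (M X : ℝ) : (Exceptions n M X).Finite := by
  rw [exc_eq]
  exact Pool.Agent.N906.NT.VV_fin _ M X

/-- the second order term of the number of the special exceptions -/
theorem second_special {n : ℕ} (hn : 4 ≤ n) {M : ℝ} (h1 : 1 / (n : ℝ) < M) (h2 : M < 3 / (3 * n - 1)) :
    SecondOrder (fun X => (Special n M X).ncard) (1 / M - 1) (const n M (n - 2) (n.choose 2 - 1))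
      (((n - 2 : ℕ) : ℝ) / ((n - 2 : ℕ) + 1)) := by
  classical
  have hc : 1 ≤ n.choose 2 - 1 := by
    have h := (without_complex hn (S := ((univ : Finset (Fin n)).powersetCard (n - 2)).toList.headI) ?_).2.2.2.2
    · exact h
    · have hne : ((univ : Finset (Fin n)).powersetCard (n - 2)).toList ≠ [] := by
        intro h0
        rw [Finset.toList_eq_nil] at h0
        have := congrArg card h0
        rw [card_powersetCard, card_univ, Fintype.card_fin, card_empty] at this
        exact (Nat.choose_pos (by omega : n - 2 ≤ n)).ne' this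
      obtain ⟨a, l, hl⟩ := List.exists_cons_of_ne_nil hne
      have ha : a ∈ ((univ : Finset (Fin n)).powersetCard (n - 2)).toList := by rw [hl]; simp
      rw [hl]
      exact (mem_powersetCard.1 (Finset.mem_toList.1 ha)).2
  obtain ⟨S₀, hS₀⟩ : ((univ : Finset (Fin n)).powersetCard (n - 2)).Nonempty := by
    rw [← card_pos, card_powersetCard, card_univ, Fintype.card_fin]
    exact Nat.choose_pos (by omega)
  have hr0 : (0 : ℝ) < ((n - 2 : ℕ) : ℝ) := by exact_mod_cast (by omega : 0 < n - 2)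
  have hfin : ∀ X, ∀ S, (OfType n M (without S) X).Finite := fun X S =>
    (fin_exc n M X).subset fun x hx => hx.1
  refine squeeze ((univ : Finset (Fin n)).powersetCard (n - 2))
    (fun S X => (OfType n M (without S) X).ncard) _ hS₀ (by positivity) (nonneg_e (by omega) h1 h2)
    (const_pos (by omega) h1 (by omega) hc) ?_ ?_ ?_
  · intro S hS
    exact second_type (by omega) h1 h2 (without_complex hn (mem_powersetCard.1 hS).2) (by omega)
  · intro X
    refine Set.ncard_le_ncard ?_ ((fin_exc n M X).subset fun x hx => hx.1)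
    rw [special_eq hn]
    exact Set.subset_biUnion_of_mem (u := fun S => OfType n M (without S) X) hS₀
  · intro X
    show (Special n M X).ncard ≤ ∑ S ∈ (univ : Finset (Fin n)).powersetCard (n - 2),
      (OfType n M (without S) X).ncard
    rw [special_eq hn]
    exact Finset.set_ncard_biUnion_le _ _

/-- **Theorem.** Let `n ≥ 3` and `1/n < M < 3/(3n-1)`. (1) The number of the exceptions of height at most `X` to the
inequality `max |x_i| ≤ rad (x_1 ⋯ x_n) ^ M` is finite and is
`X ^ (1/M - 1) * exp ((const n M (n-2) (n(n-1)/2) + o(1)) (log X / log log X) ^ ((n-2)/(n-1)))`. (2) For each simplicial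
complex `Δ` which contains all the vertices, with `t` faces of the largest size `r ≤ n - 2`, the number of the exceptions
of type `Δ` is `X ^ (1/M - 1) * exp ((const n M r t + o(1)) (log X / log log X) ^ (r/(r+1)))`. (3) If `n ≥ 4`, then for
almost all exceptions each set with `n - 2` elements is the set of the coordinates divisible by `p` for some prime `p`: the
proportion of the other ones tends to zero, and its logarithm divided by `(log X / log log X) ^ ((n-2)/(n-1))` tends to the
negative number `const n M (n-2) (n(n-1)/2 - 1) - const n M (n-2) (n(n-1)/2)`. -/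
theorem result : ∀ n : ℕ, 3 ≤ n → ∀ M : ℝ, 1 / (n : ℝ) < M → M < 3 / (3 * n - 1) →
    ((∀ X : ℝ, (Exceptions n M X).Finite) ∧
      SecondOrder (fun X => (Exceptions n M X).ncard) (1 / M - 1) (const n M (n - 2) (n.choose 2))
        (((n : ℝ) - 2) / (n - 1))) ∧
    (∀ (Δ : Finset (Finset (Fin n))) (r t : ℕ), IsComplex Δ r t → r ≤ n - 2 →
      SecondOrder (fun X => (OfType n M Δ X).ncard) (1 / M - 1) (const n M r t) ((r : ℝ) / (r + 1))) ∧
    (4 ≤ n →
      const n M (n - 2) (n.choose 2 - 1) < const n M (n - 2) (n.choose 2) ∧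
      Tendsto (fun X : ℝ => ((Special n M X).ncard : ℝ) / ((Exceptions n M X).ncard : ℝ)) atTop (𝓝 0) ∧
      Tendsto (fun X : ℝ => Real.log (((Special n M X).ncard : ℝ) / ((Exceptions n M X).ncard : ℝ)) /
          scale (((n : ℝ) - 2) / (n - 1)) X) atTop
        (𝓝 (const n M (n - 2) (n.choose 2 - 1) - const n M (n - 2) (n.choose 2)))) := by
  intro n hn M h1 h2
  have hρ : ((n - 2 : ℕ) : ℝ) / ((n - 2 : ℕ) + 1) = ((n : ℝ) - 2) / (n - 1) := by
    rw [Nat.cast_sub (by omega)]
    congr 1
    push_cast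
    ring
  have hall : SecondOrder (fun X => (Exceptions n M X).ncard) (1 / M - 1)
      (const n M (n - 2) (n.choose 2)) (((n : ℝ) - 2) / (n - 1)) := by
    have h := second_type hn h1 h2 (full_complex hn) (by omega)
    simp only [exc_type hn] at h
    rwa [hρ] at h
  refine ⟨⟨fun X => fin_exc n M X, hall⟩, fun Δ r t hΔ hr => second_type hn h1 h2 hΔ (by omega), fun h4 => ?_⟩
  have hsp := second_special h4 h1 h2
  rw [hρ] at hsp
  have hn3 : (3 : ℝ) ≤ n := by exact_mod_cast hn
  have hρ0 : 0 < ((n : ℝ) - 2) / (n - 1) := div_pos (by linarith) (by linarith)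
  have hc2 : 2 ≤ n.choose 2 := by
    have : (3 : ℕ).choose 2 ≤ n.choose 2 := Nat.choose_le_choose 2 (by omega)
    have h7 : (3 : ℕ).choose 2 = 3 := by decide
    omega
  have hlt : const n M (n - 2) (n.choose 2 - 1) < const n M (n - 2) (n.choose 2) :=
    const_lt hn h1 (by omega) (by omega)
  have hne1 := eventually_ne hρ0 (nonneg_e hn h1 h2) (const_pos hn h1 (by omega) (by omega)) hall
  have hne2 := eventually_ne hρ0 (nonneg_e hn h1 h2) (const_pos hn h1 (by omega) (by omega)) hsp
  have hlog : Tendsto (fun X : ℝ => Real.log (((Special n M X).ncard : ℝ) / ((Exceptions n M X).ncard : ℝ)) /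
      scale (((n : ℝ) - 2) / (n - 1)) X) atTop
      (𝓝 (const n M (n - 2) (n.choose 2 - 1) - const n M (n - 2) (n.choose 2))) := by
    refine (Tendsto.sub hsp hall).congr' ?_
    filter_upwards [hne1, hne2] with X g1 g2
    rw [Real.log_div (by exact_mod_cast g2) (by exact_mod_cast g1)]
    ring
  refine ⟨hlt, ?_, hlog⟩
  have hsc := scale_tendsto hρ0
  have h5 : Tendsto (fun X : ℝ => Real.log (((Special n M X).ncard : ℝ) / ((Exceptions n M X).ncard : ℝ)))
      atTop atBot := by
    have h6 := Tendsto.neg_mul_atTop (sub_neg.2 hlt) hlog hsc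
    refine h6.congr' ?_
    filter_upwards [hsc.eventually_gt_atTop 0] with X g1
    exact div_mul_cancel₀ _ g1.ne'
  refine (Real.tendsto_exp_atBot.comp h5).congr' ?_
  filter_upwards [hne1, hne2] with X g1 g2
  refine Real.exp_log (div_pos ?_ ?_)
  · exact_mod_cast Nat.pos_of_ne_zero g2
  · exact_mod_cast Nat.pos_of_ne_zero g1

end Pool.Agent.Results.MP_a95293_nt.TypesOfExceptions
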